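import Pool.Agent.H.MP_2e8011_lc.B

namespace Pool.Agent.Results.MP_2e8011_lc.HamHj
open Pool.Agent.Lib.CX

/-- the tree H_j: path 0, 1, …, j; pendant vertices j+1, j+2 at 0 and j+3, j+4 at j -/
def Hg (j : ℕ) : SimpleGraph (Fin (j + 5)) := SimpleGraph.fromRel fun u v =>
  (v.1 = u.1 + 1 ∧ v.1 ≤ j) ∨ (u.1 = 0 ∧ (v.1 = j + 1 ∨ v.1 = j + 2)) ∨ (u.1 = j ∧ (v.1 = j + 3 ∨ v.1 = j + 4))

theorem result : ∀ j : ℕ, 32 ≤ j →
    NPComplete fun a : {a : Gr // (Hg j).Free a.G} => ∃ v, ∃ p : a.1.G.Walk v v, p.IsHamiltonianCycle := by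
  intro j hj
  refine ⟨Lib.helper7.ham_np.red ⟨Subtype.val, by fun_prop, fun _ => Iff.rfl⟩, ?_⟩
  have free : ∀ ψ, (Hg j).Free (H.MP_2e8011_lc.gr ((0, 0, true, 0) : H.MP_2e8011_lc.W) j ψ).G := by
    rintro ψ ⟨f⟩
    let g := (mkGrIso _ _).toCopy.comp f
    let p : ℕ → _ := fun k => (g ⟨k % (j + 5), Nat.mod_lt _ (by omega)⟩).1
    have adj : ∀ k < j + 5, ∀ l < j + 5, (l = k + 1 ∧ l ≤ j) ∨ (k = 0 ∧ (l = j + 1 ∨ l = j + 2)) ∨
        (k = j ∧ (l = j + 3 ∨ l = j + 4)) → Lib.helper7.NA (H.MP_2e8011_lc.es (0, 0, true, 0) j ψ) (p k) (p l) :=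
      fun k hk l hl h => by
        have : (Hg j).Adj ⟨k % (j + 5), Nat.mod_lt _ (by omega)⟩ ⟨l % (j + 5), Nat.mod_lt _ (by omega)⟩ := by
          simp only [Hg, SimpleGraph.fromRel_adj, Ne, Fin.ext_iff, Nat.mod_eq_of_lt hk, Nat.mod_eq_of_lt hl]
          omega
        exact g.toHom.map_rel this
    refine H.MP_2e8011_lc.no_copy hj p (fun k _ => (g _).2) (fun k hk l hl e => ?_)
      (fun k hk => adj _ (by omega) _ (by omega) (by omega)) (adj _ (by omega) _ (by omega) (by omega))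
      (adj _ (by omega) _ (by omega) (by omega)) (adj _ (by omega) _ (by omega) (by omega))
      (adj _ (by omega) _ (by omega) (by omega))
    simpa [Nat.mod_eq_of_lt hk, Nat.mod_eq_of_lt hl] using g.injective (Subtype.ext e)
  exact NPHard.of_sat3 (fun φ => ⟨_, free (H.MP_2e8011_lc.psi φ)⟩)
    (PT.subtype ((H.MP_2e8011_lc.pt_gr _ j).comp H.MP_2e8011_lc.pt_psi) _)
    (H.MP_2e8011_lc.red j (by omega))

end Pool.Agent.Results.MP_2e8011_lc.HamHj
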